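import Pool.Agent.Helper69.UX.All
import Pool.Agent.Helper25.SHT.M_ALN
import Pool.Agent.Helper67.SHT.M_TNG
import Pool.Agent.Helper61.SHT.M_MUX
import Pool.Agent.Helper71.SHT.M_FUP
import Pool.Agent.Helper9.SHT.M_FLO
import Pool.Agent.Helper38.SHT.M_SLO
import Pool.Agent.Helper42.SHT.M_CTW
import Pool.Agent.Helper34.SHT.M_SUB
import Pool.Agent.Helper70.SHT.M_SHT

/-!
# Project SHT (MP_e12aa9_pr): all statements are proved
-/

set_option autoImplicit false

namespace Pool.Agent.Helper69.SHT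

open Pool.Agent.Helper82.CN Pool.Agent.Helper69.UX

theorem aALN : StALN := Pool.Agent.Helper25.SHT.hALN
theorem aTNG : StTNG := Pool.Agent.Helper67.SHT.hTNG
theorem aMUX : StMUX := Pool.Agent.Helper61.SHT.hMUX aSIZ
theorem aFUP : StFUP := Pool.Agent.Helper71.SHT.hFUP aECL
theorem aFLO : StFLO := Pool.Agent.Helper9.SHT.hFLO aGFM aIDN aMAX aPRQ aOPT aMCD
theorem aSLO : StSLO := Pool.Agent.Helper38.SHT.hSLO aPAR aTNG aMUX aFUP aFLO
theorem aCTW : StCTW := Pool.Agent.Helper42.SHT.hCTW aSLO aALN aINC Pool.Agent.Helper8.CN.tLIP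
  aMCD Pool.Agent.Helper14.CN.tWIN
theorem aSUB : StSUB := Pool.Agent.Helper34.SHT.hSUB aCTW aALN
theorem aSHT : StSHT := Pool.Agent.Helper70.SHT.hSHT aSUB aALN aUXF

end Pool.Agent.Helper69.SHT
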