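import Pool.Agent.Helper69.UX.StE

/-!
# Project SHT (MP_e12aa9_pr): short intervals.  Statements with proofs

THEOREM (SHT).  `p ∈ (0, 1 - e⁻²]`, `ε > 0`.  There are `η > 0` and `N₀` such that for all `N ≥ N₀` with `θ = frac α₀(N) ≥ 1/2` and all `W` with
`N^{θ+ε} ≤ W ≤ η N` at least `(1 - θ - ε) W` numbers `n ∈ (N, N+W]` satisfy `N^{θ/2-ε} ≤ σ_n ≤ N^{θ/2+ε}`.

Notation as in project UX: `L = bb p = ln(1/(1-p)) ∈ (0,2]`, `T = ⌊α₀(n)⌋ - 1`, `K = KK T κ`, `f = fn p` (expectation of the chromatic number), `σ_n = sn p n`.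

Proved statements of UX are in Pool/Agent/Helper69/UX/All.lean (`aSIZ`, `aPAR`, `aECL`, `aGFM`, `aIDN`, `aMAX`, `aPRQ`, `aOPT`, `aUXF`), of CN in
Pool/Agent/Helper82/CN/All.lean (`aMCD`, `aINC`), `StLip` is `Pool.Agent.Helper8.CN.tLIP`, `StWin` is `Pool.Agent.Helper14.CN.tWIN`.
-/

set_option autoImplicit false

namespace Pool.Agent.Helper69.SHT

open Finset Filter Pool.Agent.Helper82.CN Pool.Agent.Helper11.PV Pool.Agent.Helper69.VX Pool.Agent.Helper69.UX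

/-- ALN (growth of `α₀`).

PROOF.  `al p x = (2/L)(ln x - ln(ln x / L)) + const`, i.e. `α₀(y) - α₀(x) = (2/L)[(ln y - ln x) - (ln ln y - ln ln x)]` for `1 < x ≤ y` (`ln(ln x/L) = ln ln x - ln L`, `L > 0`).
With `u = ln x ≥ 1`, `v = ln y ≥ u`: `0 ≤ ln v - ln u ≤ (v-u)/u ≤ v - u`.  So `0 ≤ α₀(y) - α₀(x) ≤ (2/L)(ln y - ln x) ≤ (2/L)(y-x)/x`. -/
def StALN : Prop := ∀ (p x y : ℝ), 0 < p → p < 1 → 3 ≤ x → x ≤ y →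
  a0 p x ≤ a0 p y ∧ a0 p y - a0 p x ≤ 2 / bb p * ((y - x) / x)

/-- TNG (tangent line; the entropy is jointly concave).  Pure algebra.

PROOF.  `K = KK T κ`, `K' = KK T κ'`.  For `1 ≤ u ≤ T`: `ln om u = ln κ u - lam - mu u` and `ln om u = ln κ' u - lam' - mu' u` (Par.eq; `om p u > 0`, so `κ u, κ' u > 0`).
`Σ = ∑_{1≤u≤T} κ' u (ln om u - ln κ' u + 1) = -lam' K' - mu' n' + K'` (second formula, Par.sum) and by the first formula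
`Σ = ∑ κ' u (ln (κ u/κ' u) + 1) - lam K' - mu n' ≤ ∑ κ' u · (κ u/κ' u) - lam K' - mu n' = K - lam K' - mu n'` (`ln x + 1 ≤ x`; `κ 0 = κ' 0 = 0`).
Par.ent for `n'`: `0 ≤ n'^{th'+3ε} = ln n'! + Σ ≤ ln n'! + K - lam K' - mu n'`; Par.ent for `n`: `K = n^{th+3ε} - ln n! + mu n + lam K`.  So
`0 ≤ n^{th+3ε} + (ln n'! - ln n!) - mu (n' - n) - lam (K' - K)`, and `ln n'! - ln n! = ∑_{n<j≤n'} ln j ≤ (n'-n) ln n'`. -/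
def StTNG : Prop := ∀ (p ε C δ : ℝ) (n n' T : ℕ) (th th' : ℝ) (κ κ' : ℕ → ℝ) (lam mu lam' mu' : ℝ),
  0 < p → p < 1 → 1 ≤ n → n ≤ n' → Par p ε C δ n T th κ lam mu → Par p ε C δ n' T th' κ' lam' mu' →
  ((n' : ℝ) - n) * (mu - Real.log n') - (n : ℝ) ^ (th + 3 * ε) ≤ -lam * (KK T κ' - KK T κ)

/-- MUX (the multipliers).  Uses `StSIZ`.

PROOF.  `λ = ln n`, `x = mu - λ`, `K = KK T κ`, `mK = ∑ (T-u) κ u`, so `n = (T - m) K` (Par.sum), `K ≥ n/T`, `A = 2/L - th ≥ 1 - th ≥ 12ε` (`L ≤ 2`, Win), `|m - A| ≤ δ₁` (Par.mean), `0 ≤ m`.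
(a) `n ln n - n ≤ ln n! ≤ n ln n - n + ln n + 1` (as in CN) and Par.ent: `-lam K = n^{th+3ε} + mu n - K - ln n!`.  Divide by `K`: `(T-m)x + (T-m) - 2 ≤ -lam ≤ (T-m)x + (T-m)`
(`(ln n + 1)/K ≤ T(ln n+1)/n ≤ 1`, `n^{th+3ε}/K ≤ T n^{-9ε} ≤ 1` for large `n`; SIZ t3, t6).
(b) Par.eq for `u = T`: `ln κ T = lam + mu T + ln om T`, `ln om T = hv p n T - T λ`.  So `ln κ T = lam + xT + hv p n T`, with (a): `x m ≥ ln κ T - hv p n T + (T - m) - 2`.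
`κ T ≥ K/C ≥ n/(CT)` (Par.top), `hv p n T ≤ (1 + th + δ₂)λ` (SIZ t5, `J = 0`, with `δ₂`), `T ≥ (2 - δ₂)λ/L` (SIZ t1), so `x m ≥ λ(A - δ₂ - δ₂/L) - ln(CT) - m - 2 ≥ λ(A - (2 + 1/L)δ₂)` for large `n` (`m ≤ 2/L + 1`,
`ln(CT) + m + 2 ≤ δ₂ λ`).  Hence `m > 0` and `x ≥ λ(A - (2+1/L)δ₂)/(A + δ₁) ≥ λ(1 - r)`, `r = ((2+1/L)δ₂ + δ₁)/(12ε)`.
(c) Choose `δ₁ ≤ δ'/2` and `δ₂` so small that `r (2/L + δ'/2) ≤ δ'/2`, `r ≤ 1/2`.  Then `x (2/L + δ'/2) ≥ (2/L)λ ≥ T` (SIZ t2: `LT ≤ 2λ - 2 ln T + 3 ≤ 2λ`, `T ≥ 5`, as `ln 5 ≥ 3/2`), and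
`-lam ≤ x(T-m) + T ≤ x(T - m + 2/L + δ'/2) ≤ x(T + th + δ')` as `m ≥ 2/L - th - δ₁`. -/
def StMUX : Prop := ∀ (p ε C δ' : ℝ), 0 < p → p ≤ 1 - 1 / Real.exp 2 → 0 < ε → ε ≤ 1 / 24 → 1 ≤ C →
  0 < δ' → δ' ≤ 1 → ∃ δ₁ : ℝ, 0 < δ₁ ∧ ∃ n0 : ℕ, ∀ (n T : ℕ) (th : ℝ) (κ : ℕ → ℝ) (lam mu : ℝ),
  n0 ≤ n → Win p ε n T th → Par p ε C δ₁ n T th κ lam mu →
  Real.log n / 2 ≤ mu - Real.log n ∧ -lam ≤ (mu - Real.log n) * (T + th + δ')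

/-- FUP (upper bound for the expectation).  Uses `StECL`.

PROOF.  `δ` from ECL; `χ ≤ n`, so `f(n) ≤ K + n^{th+3ε} + n P(χ > K + n^{th+3ε}) ≤ K + n^{th+3ε} + n^{-2} ≤ K + 2 n^{th+3ε}` (`K ≥ 0`). -/
def StFUP : Prop := ∀ (p ε C : ℝ), 0 < p → p ≤ 1 - 1 / Real.exp 2 → 0 < ε → ε ≤ 1 / 24 → 1 ≤ C →
  ∃ δ : ℝ, 0 < δ ∧ ∃ n0 : ℕ, ∀ (n T : ℕ) (th : ℝ) (κ : ℕ → ℝ) (lam mu : ℝ), n0 ≤ n →
  Win p ε n T th → Par p ε C δ n T th κ lam mu → fn p n ≤ KK T κ + 2 * (n : ℝ) ^ (th + 3 * ε)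

/-- FLO (lower bound for the expectation).  Uses `StGFM`, `StIDN`, `StMAX`, `StPRQ`, `StOPT`, `StMcd`.  (Compare the module of `StUXT`.)

PROOF.  Let `χ(G) < K - n^{th+5ε}` and let `P` be a proper partition with `|P| = χ` (OPT).  Then (a) `T + 2 ≤ ind`, or (b) there is a proper partition with at least `n^{th+2ε}` classes of size `T+1`, or (c) `P ∈ QQ` (its
classes are independent sets, so they have at most `ind ≤ T + 1` elements; `|P| ≤ K + n^{th+3ε}`) and `P` is not good (`num1` with `s = n^{th+5ε}` fails; GFM with `C₀ = C₁`, `J = 0`).  `P(a) ≤ E[ind; T+2 ≤ ind] ≤ n^{th-1+ε}` (IDN),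
`P(b) ≤ n^{-3}` (MAX), `P(c) ≤ ∑_{P ∈ QQ not good} (1-p)^{inn P} ≤ exp(-n^{th+4ε})` (PRQ, GFM).  So `P(χ < K - n^{th+5ε}) ≤ 1/4` for large `n`.
MCD (`t = 0`): `vn ≤ 2n`; Chebyshev: `P(χ - f(n) ≥ 2√n) ≤ vn/(4n) ≤ 1/2`.  If `f(n) < K - n^{th+5ε} - 2√n`, then `χ ≥ K - n^{th+5ε}` would imply `χ - f(n) ≥ 2√n`: `3/4 ≤ 1/2`, a contradiction.
And `2√n ≤ n^{th+5ε}` for large `n` (`th ≥ 1/2`). -/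
def StFLO : Prop := ∀ (p ε C δ : ℝ), 0 < p → p ≤ 1 - 1 / Real.exp 2 → 0 < ε → ε ≤ 1 / 24 → 1 ≤ C →
  0 < δ → ∃ n0 : ℕ, ∀ (n T : ℕ) (th : ℝ) (κ : ℕ → ℝ) (lam mu : ℝ), n0 ≤ n →
  Win p ε n T th → Par p ε C δ n T th κ lam mu → KK T κ - 2 * (n : ℝ) ^ (th + 5 * ε) ≤ fn p n

/-- SLO (slope of the expectation).  Uses `StPAR`, `StTNG`, `StMUX`, `StFUP`, `StFLO`.

PROOF.  `C` from PAR; `δ = min δ_F δ₁`, `δ_F` from FUP, `δ₁` from MUX (for `δ'`); `Par` is monotone in `δ` (only the field `mean` contains `δ`).  PAR gives `κ, lam, mu` for `n` and `κ', lam', mu'` for `n'`, `K, K'`.  `W = n' - n`.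
`f(n') - f(n) ≥ K' - K - 2n'^{th'+5ε} - 2n^{th+3ε}`.  `x = mu - ln n > 0`, `mu - ln n' = x - ln(n'/n) ≥ x - W/n`.  TNG: `-lam (K' - K) ≥ W x - W²/n - n^{th+3ε}`.  As `1 ≤ -lam ≤ x(T + th + δ')`:
`K' - K ≥ W x/(-lam) - W²/n - n^{th+3ε} ≥ W/(T + th + δ') - W²/n - n^{th+3ε}`. -/
def StSLO : Prop := ∀ (p ε δ' : ℝ), 0 < p → p ≤ 1 - 1 / Real.exp 2 → 0 < ε → ε ≤ 1 / 24 →
  0 < δ' → δ' ≤ 1 → ∃ n0 : ℕ, ∀ (n n' T : ℕ) (th th' : ℝ), n0 ≤ n → n ≤ n' →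
  Win p ε n T th → Win p ε n' T th' →
  ((n' : ℝ) - n) / (T + th + δ') - ((n' : ℝ) - n) ^ 2 / n - 3 * (n : ℝ) ^ (th + 5 * ε) -
    2 * (n' : ℝ) ^ (th' + 5 * ε) ≤ fn p n' - fn p n

open Classical in
/-- CTW (counting in a short interval; the proof of `StWth` of project CN with `StSLO` in the place of `StLow`, `StUpp`).  Uses `StSLO`, `StALN`, `StInc`, `StLip`, `StMcd`, `StWin`.

PROOF.  `θ = fract (a0 p N)`, `a = ⌊a0 p N⌋ = T + 1`.  WLOG `ε ≤ 1`; if `θ > 1 - ε` the left side is `≤ 0`.  Let `θ ≤ 1 - ε`, `ε' = ε/40`, `δ' = ε/8`, `N' = N + W`, `α₀(N') ≤ α₀(N) + (2/L) N^{-ε}` (ALN), so `Win p ε' N T θ`, `Win p ε' N' T θ'`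
with `θ ≤ θ' ≤ θ + (2/L)N^{-ε}` and SLO: `f(N') - f(N) ≥ W/(T+θ+δ') - W²/N - 3N^{θ+5ε'} - 2N'^{θ'+5ε'} ≥ W/(T+θ+δ') - 9 W N^{-ε/2}` (`W ≤ N^{1-ε}`, `N'^{θ'+5ε'} ≤ 2 N^{θ+6ε'}`, `N^{θ+ε} ≤ W`, `N' ≤ 2N`).
`D = {n : N^{θ/2-ε} ≤ σ_n}`, `e = ε/(8a)`.  For `N + a ≤ n ≤ N'`: `θ(n) = α₀(n) - a ∈ [θ, 1]`.  If `f(n) - f(n-a) > 1 + e` then INC with `δ = ε/8` gives `σ_n ≥ e n^{θ(n)/2-δ} ≥ e N^{θ/2-δ} ≥ N^{θ/2-ε} + a` (large `N`; `a ≤ 3 ln N/L`), so `j ∈ D` for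
`n - (a-1) < j ≤ n` (LIP), and INC, MCD (`σ_n² ≤ 2n`): `f(n) - f(n-(a-1)) - 1 ≤ √(2n) n^{-(1+θ(n))/2+δ} ≤ 2n^{-θ/2+δ} ≤ e`.  So WIN applies:
`#D ≥ (a(a-1)/(1+e)) [f(N') - f(N) - a - (1+e)W/a]`, and `f(N') - f(N) - (1+e)W/a ≥ W[(1-θ-δ')/(a(a-1+θ+δ')) - ε/(8a²) - 9N^{-ε/2}]` (`T + θ + δ' = a - 1 + θ + δ'`).  So
`#D ≥ W[(1-θ-ε/8)(1 - 2/a)(1-e) - ε/8 - 9a²N^{-ε/2}] - a³ ≥ (1-θ-ε)W` (`a → ∞`, `a³ ≤ (ε/8)W`). -/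
def StCTW : Prop := ∀ (p ε : ℝ), 0 < p → p ≤ 1 - 1 / Real.exp 2 → 0 < ε → ∃ n0 : ℕ, ∀ N W : ℕ, n0 ≤ N →
  1 / 2 ≤ Int.fract (a0 p N) → (N : ℝ) ^ (Int.fract (a0 p N) + ε) ≤ W → (W : ℝ) ≤ (N : ℝ) ^ (1 - ε) →
  (1 - Int.fract (a0 p N) - ε) * W ≤ (((Ioc N (N + W)).filter
    (fun n => (N : ℝ) ^ (Int.fract (a0 p N) / 2 - ε) ≤ sn p n)).card : ℝ)

open Classical in
/-- SUB (longer intervals).  Uses `StCTW`, `StALN`.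

PROOF.  WLOG `ε ≤ 1`, `ε₁ = ε/8`, `η = min(1, L ε₁/2)/2`, `θ = fract (a0 p N)`; if `θ > 1 - ε` the left side is `≤ 0`.  If `W ≤ N^{1-ε₁}`: CTW with `ε₁` (`N^{θ+ε₁} ≤ N^{θ+ε} ≤ W`, `N^{θ/2-ε} ≤ N^{θ/2-ε₁}`).  If `N^{1-ε₁} < W ≤ ηN`: `W₀ = ⌊N^{1-2ε₁}⌋`, `I = ⌊W/W₀⌋`,
`N_i = N + iW₀` (`i < I`); the intervals `(N_i, N_i + W₀]` are disjoint and contained in `(N, N+W]`.  By ALN `a0 p N ≤ a0 p N_i ≤ a0 p N + (2/L)η ≤ a0 p N + ε₁`, so `θ_i = fract (a0 p N_i) ∈ [θ, θ+ε₁]`.  `N_i^{θ_i+ε₁} ≤ (2N)^{θ+2ε₁} ≤ W₀` (`θ + 2ε₁ ≤ 1 - 6ε₁`) and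
`W₀ ≤ N_i^{1-ε₁}`: CTW with `ε₁`: at least `(1-θ_i-ε₁)W₀ ≥ (1-θ-2ε₁)W₀` numbers `n` in the `i`-th interval have `σ_n ≥ N_i^{θ_i/2-ε₁} ≥ N^{θ/2-ε}` (`θ_i/2 - ε₁ ≥ 0`).  The sum is `≥ (1-θ-2ε₁)(W - W₀) ≥ (1-θ-2ε₁)W - W₀ ≥ (1-θ-ε)W`. -/
def StSUB : Prop := ∀ (p ε : ℝ), 0 < p → p ≤ 1 - 1 / Real.exp 2 → 0 < ε → ∃ η : ℝ, 0 < η ∧ ∃ n0 : ℕ,
  ∀ N W : ℕ, n0 ≤ N → 1 / 2 ≤ Int.fract (a0 p N) → (N : ℝ) ^ (Int.fract (a0 p N) + ε) ≤ W →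
  (W : ℝ) ≤ η * N →
  (1 - Int.fract (a0 p N) - ε) * W ≤ (((Ioc N (N + W)).filter
    (fun n => (N : ℝ) ^ (Int.fract (a0 p N) / 2 - ε) ≤ sn p n)).card : ℝ)

open Classical in
/-- SHT (the theorem).  Uses `StSUB`, `StALN`, `StUXF`.

PROOF.  `η` from SUB for `min ε 1`, made smaller so that `(2/L)η ≤ ε/4` and `η ≤ 1`.  `θ = fract (a0 p N)`; if `θ > 1 - ε` the left side is `≤ 0`.  Otherwise, for `n ∈ (N, N+W]`, by ALN `a0 p N ≤ a0 p n ≤ a0 p N + ε/4`, so `θ ≤ fract (a0 p n) ≤ θ + ε/4`, and UXF with `ε/4`: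
`σ_n ≤ n^{fract(a0 p n)/2 + ε/4} ≤ (2N)^{θ/2 + 3ε/8} ≤ N^{θ/2+ε}` for large `N`.  So the upper bound holds for all `n ∈ (N, N+W]`. -/
def StSHT : Prop := ∀ (p ε : ℝ), 0 < p → p ≤ 1 - 1 / Real.exp 2 → 0 < ε → ∃ η : ℝ, 0 < η ∧ ∃ n0 : ℕ,
  ∀ N W : ℕ, n0 ≤ N → 1 / 2 ≤ Int.fract (a0 p N) → (N : ℝ) ^ (Int.fract (a0 p N) + ε) ≤ W →
  (W : ℝ) ≤ η * N →
  (1 - Int.fract (a0 p N) - ε) * W ≤ (((Ioc N (N + W)).filter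
    (fun n => (N : ℝ) ^ (Int.fract (a0 p N) / 2 - ε) ≤ sn p n ∧
      sn p n ≤ (N : ℝ) ^ (Int.fract (a0 p N) / 2 + ε))).card : ℝ)

end Pool.Agent.Helper69.SHT
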